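import Mathlib

/-!
Cyclic sorting time by adjacent-value swaps: `Sort_n = inv(pi_0)` fails at `n = 18`.
-/

open Equiv

namespace Pool.Agent.Results.MP_fb91b8_co.Disproof

/-! ### Definitions -/

/-- `γ` is an `n`-cycle: all points of `Fin n` lie on one cycle of `γ`. -/
def IsFullCycle {n : ℕ} (γ : Perm (Fin n)) : Prop := ∀ x y : Fin n, γ.SameCycle x y

/-- The set `C_n` of `n`-cycles. -/
abbrev Cyc (n : ℕ) : Type := {γ : Perm (Fin n) // IsFullCycle γ}

/-- The adjacent transposition exchanging the consecutive values `i` and `i + 1`. -/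
def adjSwap {n : ℕ} (i : ℕ) (h : i + 1 < n) : Perm (Fin n) :=
  swap ⟨i, Nat.lt_of_succ_lt h⟩ ⟨i + 1, h⟩

/-- The graph `Γ_n` on `C_n`: distinct `γ, γ'` are adjacent iff `γ' = s_i γ s_i` for some `i`. -/
def Gam (n : ℕ) : SimpleGraph (Cyc n) where
  Adj γ γ' := γ ≠ γ' ∧ ∃ (i : ℕ) (h : i + 1 < n), γ'.1 = adjSwap i h * γ.1 * adjSwap i h
  symm := ⟨by
    rintro γ γ' ⟨hne, i, h, e⟩
    refine ⟨hne.symm, i, h, ?_⟩
    have hs : adjSwap i h * adjSwap i h = 1 := Equiv.swap_mul_self _ _
    rw [e]
    calc γ.1 = 1 * γ.1 * 1 := by simp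
      _ = (adjSwap i h * adjSwap i h) * γ.1 * (adjSwap i h * adjSwap i h) := by rw [hs]
      _ = _ := by simp only [mul_assoc]⟩
  loopless := ⟨fun γ h => h.1 rfl⟩

theorem isFullCycle_finRotate (n : ℕ) : IsFullCycle (finRotate n) := by
  intro x y
  match n, x, y with
  | 0, x, _ => exact x.elim0
  | 1, x, y => 
    have : x = y := by omega
    rw [this]
  | n + 2, x, y =>
    have hx : finRotate (n + 2) x ≠ x := by
      rw [← Perm.mem_support, support_finRotate]; exact Finset.mem_univ _
    have hy : finRotate (n + 2) y ≠ y := by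
      rw [← Perm.mem_support, support_finRotate]; exact Finset.mem_univ _
    exact isCycle_finRotate.sameCycle hx hy

/-- The cycle `c_n = (1, 2, ..., n)`, on `Fin n` the map `i ↦ i + 1` modulo `n`. -/
def cyc (n : ℕ) : Cyc n := ⟨finRotate n, isFullCycle_finRotate n⟩

/-- `Sort_n = max_γ dist(c_n, γ)`, the maximum over all `n`-cycles `γ`. -/
noncomputable def sortTime (n : ℕ) : ℕ := ⨆ γ : Cyc n, (Gam n).dist (cyc n) γ

/-- Number of inversions of a word: pairs of positions `i < j` with `l_i > l_j`. -/
def inv : List ℕ → ℕ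
  | [] => 0
  | a :: l => l.countP (fun b => decide (b < a)) + inv l

/-- A word `l` of length `n` is admissible if every prefix sum satisfies
`l_1 + ... + l_k ≤ k (n + 1) / 2`. -/
def Admissible (l : List ℕ) : Prop :=
  ∀ k ∈ List.range (l.length + 1), 2 * (l.take k).sum ≤ k * (l.length + 1)

instance (l : List ℕ) : Decidable (Admissible l) := by
  unfold Admissible; infer_instance

/-- The word obtained from `l` by taking the value `v` out and putting it back so that it
stands immediately after the first `q` other letters (so at position `q`). -/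
def moveTo (l : List ℕ) (v q : ℕ) : List ℕ := (l.erase v).insertIdx q v

/-- `q` is an allowed new position for the value `v` of `l`: it lies weakly to the left of the
present position, `v` passes no larger value, and the resulting word is admissible. -/
def Allowed (l : List ℕ) (v q : ℕ) : Prop :=
  q ≤ l.idxOf v ∧ (∀ x ∈ (l.take (l.idxOf v)).drop q, x ≤ v) ∧ Admissible (moveTo l v q)

instance (l : List ℕ) (v q : ℕ) : Decidable (Allowed l v q) := by
  unfold Allowed; infer_instance

/-- Move the value `v` to the left as far as possible: to the least allowed position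
(if there is no allowed position the word is left unchanged). -/
def moveLeft (l : List ℕ) (v : ℕ) : List ℕ :=
  match (List.range (l.length + 1)).find? (fun q => decide (Allowed l v q)) with
  | some q => moveTo l v q
  | none => l

/-- The starting word `[n-m, n-m-1, ..., 1, n, n-1, ..., n-m+1]`, `m = ⌊n/2⌋`. -/
def start (n : ℕ) : List ℕ :=
  (List.range (n - n / 2)).map (fun i => n - n / 2 - i) ++ (List.range (n / 2)).map (fun i => n - i)

/-- The permutation `π_0`: for `t = 1, ..., m` in turn move the value `n + 1 - t` to the left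
as far as possible. -/
def pi0 (n : ℕ) : List ℕ :=
  (List.range (n / 2)).foldl (fun l i => moveLeft l (n - i)) (start n)

example : pi0 12 = [6, 5, 4, 3, 12, 2, 11, 1, 10, 9, 8, 7] := by decide +kernel

theorem inv_pi0 : inv (pi0 18) = 82 := by decide +kernel

/-! ### Inversions of permutations and the lower bound on the distance -/

/-- The set of inversions of a permutation. -/
def invSet {n : ℕ} (w : Perm (Fin n)) : Finset (Fin n × Fin n) :=
  Finset.univ.filter (fun p => p.1 < p.2 ∧ w p.2 < w p.1)

theorem mem_invSet {n : ℕ} (w : Perm (Fin n)) (p : Fin n × Fin n) :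
    p ∈ invSet w ↔ p.1 < p.2 ∧ w p.2 < w p.1 := by
  simp [invSet]

theorem swap_lt_cases {n : ℕ} (i : ℕ) (h : i + 1 < n) (x y : Fin n)
    (hxy : adjSwap i h y < adjSwap i h x) (hne : x ≠ y) :
    y < x ∨ (x = ⟨i, Nat.lt_of_succ_lt h⟩ ∧ y = ⟨i + 1, h⟩) := by
  unfold adjSwap at hxy
  rw [Equiv.swap_apply_def, Equiv.swap_apply_def] at hxy
  rcases x with ⟨x, hx⟩
  rcases y with ⟨y, hy⟩
  simp only [Fin.mk.injEq, ne_eq, Fin.mk_lt_mk] at hxy hne ⊢
  split_ifs at hxy <;> simp only [Fin.mk_lt_mk] at hxy <;> omega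

theorem card_invSet_adjSwap_mul {n : ℕ} (w : Perm (Fin n)) (i : ℕ) (h : i + 1 < n) :
    (invSet (adjSwap i h * w)).card ≤ (invSet w).card + 1 := by
  have hsub : invSet (adjSwap i h * w) ⊆
      insert (w⁻¹ ⟨i, Nat.lt_of_succ_lt h⟩, w⁻¹ ⟨i + 1, h⟩) (invSet w) := by
    intro p hp
    rw [mem_invSet] at hp
    rw [Finset.mem_insert, mem_invSet]
    simp only [Perm.mul_apply] at hp
    have hne : w p.1 ≠ w p.2 := fun e => (ne_of_lt hp.1) (w.injective e)
    rcases swap_lt_cases i h (w p.1) (w p.2) hp.2 hne with h1 | ⟨h1, h2⟩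
    · exact Or.inr ⟨hp.1, h1⟩
    · left
      rw [← h1, ← h2]
      simp
  exact (Finset.card_le_card hsub).trans (Finset.card_insert_le _ _)

/-- Along a walk of length `L` the number of inversions of a conjugating permutation grows by
at most `L`. -/
theorem exists_conj_of_walk {n : ℕ} {a b : Cyc n} (p : (Gam n).Walk a b) :
    ∀ k : ℕ, (∃ w : Perm (Fin n), w * (cyc n).1 * w⁻¹ = a.1 ∧ (invSet w).card ≤ k) →
      ∃ w : Perm (Fin n), w * (cyc n).1 * w⁻¹ = b.1 ∧ (invSet w).card ≤ k + p.length := by
  induction p with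
  | nil => intro k hk; simpa using hk
  | cons hadj q ih =>
    intro k hk
    obtain ⟨w, hw, hwk⟩ := hk
    have hadj' := hadj
    obtain ⟨_, i, h, e⟩ := hadj'
    have := ih (k + 1) ⟨adjSwap i h * w, ?_, ?_⟩
    · obtain ⟨w', h1, h2⟩ := this
      refine ⟨w', h1, ?_⟩
      rw [SimpleGraph.Walk.length_cons]
      omega
    · rw [e, ← hw]
      have hs : (adjSwap i h)⁻¹ = adjSwap i h := Equiv.swap_inv _ _
      rw [mul_inv_rev, hs]
      simp only [mul_assoc]
    · exact (card_invSet_adjSwap_mul w i h).trans (by omega)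

/-- `Γ_n` is connected: every `n`-cycle is reachable from `c_n`. -/
theorem reachable_conj {n : ℕ} (w : Perm (Fin n)) (γ : Cyc n)
    (hγ : γ.1 = w * (cyc n).1 * w⁻¹) : (Gam n).Reachable (cyc n) γ := by
  rcases n with _ | n
  · have : cyc 0 = γ := Subtype.ext (Equiv.ext fun x => x.elim0)
    rw [this]
  have key : ∀ w ∈ Submonoid.closure
      (Set.range fun i : Fin n ↦ (swap i.castSucc i.succ : Perm (Fin (n + 1)))),
      ∀ γ : Cyc (n + 1), γ.1 = w * (cyc (n + 1)).1 * w⁻¹ →
        (Gam (n + 1)).Reachable (cyc (n + 1)) γ := by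
    intro w hw
    induction hw using Submonoid.closure_induction_left with
    | one =>
      intro γ hγ
      have : cyc (n + 1) = γ := Subtype.ext (by simp [hγ])
      rw [this]
    | mul_left x hx y hy ih =>
      intro γ hγ
      obtain ⟨i, rfl⟩ := hx
      have hfull : IsFullCycle (y * (cyc (n + 1)).1 * y⁻¹) := by
        intro u v
        have := (cyc (n + 1)).2 (y⁻¹ u) (y⁻¹ v)
        rw [Perm.sameCycle_conj]
        exact this
      have h1 := ih ⟨_, hfull⟩ rfl
      by_cases hEq : (⟨_, hfull⟩ : Cyc (n + 1)) = γ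
      · rw [← hEq]; exact h1
      · refine h1.trans (SimpleGraph.Adj.reachable ⟨hEq, i.1, by omega, ?_⟩)
        have hs : adjSwap (n := n + 1) i.1 (by omega) = swap i.castSucc i.succ := rfl
        rw [hs, hγ, mul_inv_rev, Equiv.swap_inv]
        simp only [mul_assoc]
  refine key w ?_ γ hγ
  rw [Perm.mclosure_swap_castSucc_succ]
  trivial

/-! ### The counterexample -/

/-- The letters `[1,13,12,11,10,9,8,7,6,18,5,4,17,3,16,2,15,14]`, shifted down by one. -/
def P : Fin 18 → Fin 18 :=
  ![0, 12, 11, 10, 9, 8, 7, 6, 5, 17, 4, 3, 16, 2, 15, 1, 14, 13]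

def Q : Fin 18 → Fin 18 :=
  ![0, 15, 13, 11, 10, 8, 7, 6, 5, 4, 3, 2, 1, 17, 16, 14, 12, 9]

def perm18 : Perm (Fin 18) where
  toFun := P
  invFun := Q
  left_inv := by decide +kernel
  right_inv := by decide +kernel

theorem many_inversions : ∀ k : Fin 18, 83 ≤
    ((Finset.univ : Finset (Fin 18 × Fin 18)).filter
      (fun p => p.1 < p.2 ∧ P (p.2 + k) < P (p.1 + k))).card := by
  decide +kernel

theorem conj_unique (w : Perm (Fin 18))
    (hw : w * finRotate 18 * w⁻¹ = perm18 * finRotate 18 * perm18⁻¹) :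
    ∃ k : Fin 18, ∀ j, w j = P (j + k) := by
  set u : Perm (Fin 18) := perm18⁻¹ * w with hu
  have hcomm : ∀ j, u (j + 1) = u j + 1 := by
    intro j
    have h1 : u * finRotate 18 = finRotate 18 * u := by
      have : w * finRotate 18 = perm18 * finRotate 18 * perm18⁻¹ * w := by
        rw [← hw]; simp
      rw [hu, mul_assoc, this]
      simp only [mul_assoc, inv_mul_cancel_left]
    have h2 := congrArg (fun f : Perm (Fin 18) => f j) h1
    simpa [Perm.mul_apply, finRotate_succ_apply] using h2
  have hlin : ∀ j : Fin 18, u j = j + u 0 := by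
    intro j
    induction j using Fin.induction with
    | zero => simp
    | succ i ih =>
      have h3 : i.succ = i.castSucc + 1 := by
        ext; simp [Fin.val_add_one_of_lt']
      rw [h3, hcomm, ih]
      abel
  refine ⟨u 0, fun j => ?_⟩
  have h4 : w j = perm18 (u j) := by simp [hu]
  rw [h4, hlin j]
  rfl

theorem isFullCycle_conj {n : ℕ} (w : Perm (Fin n)) :
    IsFullCycle (w * finRotate n * w⁻¹) := by
  intro u v
  rw [Perm.sameCycle_conj]
  exact isFullCycle_finRotate n _ _

/-- The cycle at distance at least `83` from `c_18`. -/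
def gamma18 : Cyc 18 := ⟨perm18 * finRotate 18 * perm18⁻¹, isFullCycle_conj perm18⟩

theorem dist_ge : 83 ≤ (Gam 18).dist (cyc 18) gamma18 := by
  obtain ⟨p, hp⟩ := (reachable_conj perm18 gamma18 rfl).exists_walk_length_eq_dist
  have hone : (invSet (1 : Perm (Fin 18))).card ≤ 0 := by
    rw [Nat.le_zero, Finset.card_eq_zero, Finset.eq_empty_iff_forall_notMem]
    intro q hq
    rw [mem_invSet] at hq
    exact absurd hq.1 (not_lt.mpr hq.2.le)
  obtain ⟨w, hw, hwk⟩ := exists_conj_of_walk p 0 ⟨1, by simp, hone⟩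
  obtain ⟨k, hk⟩ := conj_unique w hw
  have h83 := many_inversions k
  have hset : (Finset.univ : Finset (Fin 18 × Fin 18)).filter
      (fun p => p.1 < p.2 ∧ P (p.2 + k) < P (p.1 + k)) = invSet w := by
    ext q
    rw [mem_invSet, hk, hk]
    simp
  rw [hset] at h83
  omega

/-- The equality `Sort_n = inv(π_0)` is false: it fails for `n = 18`, where
`inv(π_0) = 82` while some `18`-cycle is at distance at least `83` from `c_18`. -/
theorem result : ¬ ∀ n : ℕ, 1 ≤ n → sortTime n = inv (pi0 n) := by
  intro hall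
  have h := hall 18 (by norm_num)
  rw [inv_pi0] at h
  have hfin : Finite (Cyc 18) := inferInstance
  have hle : (Gam 18).dist (cyc 18) gamma18 ≤ sortTime 18 :=
    le_ciSup (f := fun γ : Cyc 18 => (Gam 18).dist (cyc 18) γ) (Set.finite_range _).bddAbove gamma18
  have := dist_ge
  omega

end Pool.Agent.Results.MP_fb91b8_co.Disproof
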